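import Pool.Agent.N848.OL.Stm
import Pool.Agent.N655.OL.NMD

/-!
# Project OL (helper848): VFP, descent of local `p`-th powers at the primes above `p` (helper527)
-/

set_option autoImplicit false

namespace Pool.Agent.N527.OL

open NumberField IsDedekindDomain Module Pool.Agent.H637R2.Leo Pool.Agent.Y18.LC Pool.Agent.N848.LT
  Pool.Agent.N848.OL

section core

variable {K Γ : Type} [Field K] [LinearOrderedCommGroupWithZero Γ] (V : Valuation K Γ)

theorem natCast_le (n : ℕ) : V (n : K) ≤ 1 := by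
  induction n with
  | zero => rw [Nat.cast_zero, map_zero]; exact zero_le'
  | succ n ih => rw [Nat.cast_succ]; exact V.map_add_le ih (by rw [map_one])

/-- `x ^ n - 1` for `x` close to `1` -/
theorem pow_sub (n : ℕ) {x : K} (hx : V (x - 1) ≤ 1) : V (x ^ n - 1) ≤ V (x - 1) := by
  have hx1 : V x ≤ 1 := by
    have h := V.map_add_le hx (le_of_eq (map_one V))
    rwa [sub_add_cancel] at h
  rw [← mul_geom_sum x n, map_mul]
  have h1 : V (∑ i ∈ Finset.range n, x ^ i) ≤ 1 := by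
    refine V.map_sum_le fun i _ => ?_
    rw [map_pow]
    exact pow_le_one₀ zero_le' hx1
  calc V (x - 1) * V (∑ i ∈ Finset.range n, x ^ i) ≤ V (x - 1) * 1 := by gcongr
    _ = V (x - 1) := mul_one _

/-- the computation at one prime: `S` the sum of the conjugates `y i` of `y` -/
theorem core (p : ℕ) (hp : (p : K) ≠ 0) (hVp : V (p : K) < 1) {ι : Type} (s : Finset ι)
    (hs : s.card = p) (b y Y : K) (g : ι → K) (hy : V (b * y ^ p) = 1)
    (hy4 : V (b * y ^ p - 1) ≤ V ((p : K) ^ 4))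
    (hg : ∀ i ∈ s, V (g i / y - 1) ≤ V ((p : K) ^ 3)) (hp0 : p ≠ 0)
    (hY : Y = (∑ i ∈ s, g i) / p) :
    V (b * Y ^ p) = 1 ∧ V (b * Y ^ p - 1) ≤ V ((p : K) ^ 2) := by
  have hy0 : y ≠ 0 := by
    rintro rfl
    rw [zero_pow hp0, mul_zero, map_zero] at hy
    exact zero_ne_one hy
  have hV0 : V (p : K) ≠ 0 := (Valuation.ne_zero_iff V).2 hp
  obtain ⟨x, hx⟩ : ∃ x, x = Y / y := ⟨_, rfl⟩
  have hYx : Y = y * x := by
    rw [hx]
    field_simp
  -- `x - 1`
  have e1 : (p : K) * (x - 1) = ∑ i ∈ s, (g i / y - 1) := by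
    rw [Finset.sum_sub_distrib, Finset.sum_const, hs, nsmul_eq_mul, mul_one, ← Finset.sum_div, hx,
      hY]
    field_simp
  have e2 : V (p : K) * V (x - 1) ≤ V (p : K) ^ 3 := by
    rw [← map_mul, e1, ← map_pow]
    exact V.map_sum_le hg
  have e3 : V (x - 1) ≤ V ((p : K) ^ 2) := by
    rw [map_pow]
    have h1 : V (p : K) * V (x - 1) ≤ V (p : K) * V (p : K) ^ 2 := by
      rw [← pow_succ']
      exact e2
    exact (mul_le_mul_iff_right₀ (zero_lt_iff.2 hV0)).1 h1
  have hp2 : V ((p : K) ^ 2) < 1 := by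
    rw [map_pow]
    exact pow_lt_one₀ zero_le' hVp two_ne_zero
  have e4 : V (x ^ p - 1) ≤ V ((p : K) ^ 2) := (pow_sub V p (e3.trans hp2.le)).trans e3
  have e5 : V (x ^ p) = 1 := by
    have h1 : V (x ^ p - 1) < V (1 : K) := by
      rw [map_one]
      exact lt_of_le_of_lt e4 hp2
    have h2 := V.map_add_eq_of_lt_left h1
    rw [add_sub_cancel, map_one] at h2
    exact h2
  have h42 : V ((p : K) ^ 4) ≤ V ((p : K) ^ 2) := by
    have h1 : (p : K) ^ 4 = (p : K) ^ 2 * (p : K) ^ 2 := by ring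
    rw [h1, map_mul]
    calc V ((p : K) ^ 2) * V ((p : K) ^ 2) ≤ V ((p : K) ^ 2) * 1 := by gcongr
      _ = V ((p : K) ^ 2) := mul_one _
  constructor
  · rw [hYx, mul_pow, ← mul_assoc, map_mul, hy, e5, one_mul]
  · have h1 : b * Y ^ p - 1 = b * y ^ p * (x ^ p - 1) + (b * y ^ p - 1) := by
      rw [hYx, mul_pow]
      ring
    rw [h1]
    refine V.map_add_le ?_ (hy4.trans h42)
    rw [map_mul, hy, one_mul]
    exact e4

end core

theorem t_VFP (hIMP : S_IMP) (hAPP : S_APP) (hMUZ : S_MUZ) (hCNJ : S_CNJ)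
    (hUP : Pool.Agent.N848.LT.S_UP) : S_VFP := by
  intro p hpf hp2 K K' _ _ _ _ _ hGal hdeg hNM v hv b hb hloc
  have hp0 : p ≠ 0 := by omega
  have hpK' : (p : K') ≠ 0 := Nat.cast_ne_zero.2 hp0
  have hpK : (p : K) ≠ 0 := Nat.cast_ne_zero.2 hp0
  -- approximation
  obtain ⟨y, hy⟩ := hAPP p K K' v (algebraMap K K' b) 4
    (fun w hw => hIMP p hp2 K' w (algebraMap K K' b) (hloc w hw) 4)
  have hc : algebraMap K K' ((p : K) ^ 4) = (p : K') ^ 4 := by rw [map_pow, map_natCast]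
  have hcnj : ∀ (σ : K' ≃ₐ[K] K') (w : HeightOneSpectrum (𝓞 K')), Ab w v →
      w.valuation K' (algebraMap K K' b * (σ y) ^ p - 1) ≤ w.valuation K' ((p : K') ^ 4) := by
    intro σ w hw
    have h1 := hCNJ K K' v ((p : K) ^ 4) (algebraMap K K' b * y ^ p - 1)
      (fun w' hw' => by rw [hc]; exact (hy w' hw').2) σ w hw
    rw [hc, map_sub, map_mul, map_pow, AlgEquiv.commutes, map_one] at h1
    exact h1
  obtain ⟨w, hw⟩ := Pool.Agent.N655.OL.exists_ab K K' v
  have hpw : (p : 𝓞 K') ∈ w.asIdeal := by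
    have h1 := hv
    rw [← hw, Ideal.mem_comap, map_natCast] at h1
    exact h1
  have hVp : w.valuation K' (p : K') < 1 := by
    have h1 : w.valuation K' (algebraMap (𝓞 K') K' (p : 𝓞 K')) < 1 :=
      (HeightOneSpectrum.valuation_lt_one_iff_mem (K := K') w (p : 𝓞 K')).2 hpw
    rwa [map_natCast] at h1
  have hyw := hy w hw
  have hy0 : y ≠ 0 := by
    rintro rfl
    have h1 := hyw.1
    rw [zero_pow hp0, mul_zero, map_zero] at h1
    exact zero_ne_one h1
  have hbK' : algebraMap K K' b ≠ 0 := by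
    rw [Ne, map_eq_zero]
    exact hb
  have hz : ∀ σ : K' ≃ₐ[K] K', w.valuation K' (σ y / y - 1) ≤ w.valuation K' ((p : K') ^ 3) := by
    intro σ
    refine hMUZ p hp2 K' w hpw (hNM w hpw) (σ y / y) 4 (by norm_num) ?_
    have h1 : (σ y / y) ^ p - 1 = ((algebraMap K K' b * (σ y) ^ p - 1) -
        (algebraMap K K' b * y ^ p - 1)) / (algebraMap K K' b * y ^ p) := by
      have hyp : y ^ p ≠ 0 := pow_ne_zero _ hy0
      have h2 : (σ y) ^ p / y ^ p * y ^ p = (σ y) ^ p := div_mul_cancel₀ _ hyp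
      rw [eq_div_iff (mul_ne_zero hbK' hyp), div_pow]
      linear_combination (algebraMap K K' b) * h2
    rw [h1, map_div₀, hyw.1, div_one]
    exact (w.valuation K').map_sub_le (hcnj σ w hw) hyw.2
  have htr : algebraMap K K' (Algebra.trace K K' y / p) =
      (∑ σ : K' ≃ₐ[K] K', σ y) / (p : K') := by
    rw [map_div₀, map_natCast, trace_eq_sum_automorphisms]
  have hcard : (Finset.univ : Finset (K' ≃ₐ[K] K')).card = p := by
    rw [Finset.card_univ, ← Nat.card_eq_fintype_card, IsGalois.card_aut_eq_finrank, hdeg]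
  obtain ⟨h1, h2⟩ := core (w.valuation K') p hpK' hVp Finset.univ hcard (algebraMap K K' b) y
    (algebraMap K K' (Algebra.trace K K' y / p)) (fun σ : K' ≃ₐ[K] K' => σ y) hyw.1 hyw.2
    (fun σ _ => hz σ) hp0 htr
  obtain ⟨-, hu1, hu2, -⟩ := hUP K K' v w hw
  refine ⟨Algebra.trace K K' y / p, (hu1 _).2 ?_, ?_⟩
  · rw [map_mul, map_pow]
    exact h1
  · have hV0 : v.valuation K ((p : K) ^ 2) ≠ 0 :=
      (Valuation.ne_zero_iff _).2 (pow_ne_zero _ hpK)
    have hW0 : w.valuation K' ((p : K') ^ 2) ≠ 0 :=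
      (Valuation.ne_zero_iff _).2 (pow_ne_zero _ hpK')
    have h3 := (hu2 ((b * (Algebra.trace K K' y / p) ^ p - 1) / (p : K) ^ 2)).2 (by
      rw [map_div₀, map_div₀, map_sub, map_mul, map_pow, map_one, map_pow, map_natCast]
      exact div_le_one_of_le₀ h2 zero_le')
    rw [map_div₀] at h3
    exact (div_le_one₀ (zero_lt_iff.2 hV0)).1 h3

end Pool.Agent.N527.OL
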